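import Pool.Agent.H630AD.Defs

/-!
# Task A1: binary colourings have exactly one type; covers (helper53)
-/

open scoped Classical
open Finset

namespace H630AC

variable {k : ℕ} {W : Type}

theorem a1_kap {g : Fin k → Fin k → W} (hg : Pr2 g) {a b1 b2 : Fin k} (hb : b1 ≠ b2)
    (he : g a b1 = g a b2) {a' b'' : Fin k} (h : g a' b'' = g a b1) : a' = a := by
  by_contra hne
  by_cases h1 : b'' = b1
  · have h2 : b'' ≠ b2 := fun h2 => hb (h1.symm.trans h2)
    exact hg a' a b'' b2 hne h2 (h.trans he)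
  · exact hg a' a b'' b1 hne h1 h

theorem a1_lam {g : Fin k → Fin k → W} (hg : Pr2 g) {b a1 a2 : Fin k} (ha : a1 ≠ a2)
    (he : g a1 b = g a2 b) {a'' b' : Fin k} (h : g a'' b' = g a1 b) : b' = b := by
  by_contra hne
  by_cases h1 : a'' = a1
  · have h2 : a'' ≠ a2 := fun h2 => ha (h1.symm.trans h2)
    exact hg a'' a2 b' b h2 hne (h.trans he)
  · exact hg a'' a1 b' b h1 hne h

theorem types [Fintype W] (hW : Fintype.card W + 2 ≤ 2 * k) (g : Fin k → Fin k → W)
    (hg : Pr2 g) : (TX g ∧ ¬ TY g) ∨ (TY g ∧ ¬ TX g) := by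
  obtain ⟨PX, hPX⟩ : ∃ PX : Fin k → Prop, ∀ a, PX a ↔ ∃ b b', b ≠ b' ∧ g a b = g a b' :=
    ⟨_, fun a => Iff.rfl⟩
  obtain ⟨PY, hPY⟩ : ∃ PY : Fin k → Prop, ∀ b, PY b ↔ ∃ a a', a ≠ a' ∧ g a b = g a' b :=
    ⟨_, fun a => Iff.rfl⟩
  have hX : ∀ a : {a // PX a}, ∃ b b', b ≠ b' ∧ g a b = g a b' := fun a => (hPX _).1 a.2
  choose x1 x2 hx hxe using hX
  have hY : ∀ b : {b // PY b}, ∃ a a', a ≠ a' ∧ g a b = g a' b := fun b => (hPY _).1 b.2
  choose y1 y2 hy hye using hY
  let f : {a // PX a} ⊕ ({b // PY b} ⊕ ({a // ¬ PX a} × {b // ¬ PY b})) → W := fun t =>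
    match t with
    | Sum.inl a => g a (x1 a)
    | Sum.inr (Sum.inl b) => g (y1 b) b
    | Sum.inr (Sum.inr p) => g p.1 p.2
  have hAB : ∀ (a : {a // PX a}) (b' : {b // PY b}), g a (x1 a) ≠ g (y1 b') b' := by
    intro a b' h
    have h1 : x1 a = b' := a1_lam hg (hy b') (hye b') h
    have h2 : x2 a = b' := a1_lam hg (hy b') (hye b') ((hxe a).symm.trans h)
    exact hx a (h1.trans h2.symm)
  have hAC : ∀ (a : {a // PX a}) (a' : {a // ¬ PX a}) (b' : {b // ¬ PY b}),
      g a (x1 a) ≠ g a' b' := by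
    intro a a' b' h
    have h1 : (a' : Fin k) = a := a1_kap hg (hx a) (hxe a) h.symm
    exact a'.2 (h1 ▸ a.2)
  have hBC : ∀ (b : {b // PY b}) (a' : {a // ¬ PX a}) (b' : {b // ¬ PY b}),
      g (y1 b) b ≠ g a' b' := by
    intro b a' b' h
    have h1 : (b' : Fin k) = b := a1_lam hg (hy b) (hye b) h.symm
    exact b'.2 (h1 ▸ b.2)
  have hf : Function.Injective f := by
    rintro (a | b | ⟨a, b⟩) (a' | b' | ⟨a', b'⟩) h
    · have h1 : (a : Fin k) = a' := a1_kap hg (hx a') (hxe a') h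
      rw [Subtype.ext h1]
    · exact absurd h (hAB a b')
    · exact absurd h (hAC a a' b')
    · exact absurd h.symm (hAB a' b)
    · have h1 : (b : Fin k) = b' := a1_lam hg (hy b') (hye b') h
      rw [Subtype.ext h1]
    · exact absurd h (hBC b a' b')
    · exact absurd h.symm (hAC a' a b)
    · exact absurd h.symm (hBC b' a b)
    · have h0 : g a b = g a' b' := h
      by_cases ha : (a : Fin k) = a'
      · by_cases hb : (b : Fin k) = b'
        · rw [Subtype.ext ha, Subtype.ext hb]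
        · exact absurd ((hPX a).2 ⟨b, b', hb, by rw [h0, ha]⟩) a.2
      · by_cases hb : (b : Fin k) = b'
        · exact absurd ((hPY b).2 ⟨a, a', ha, by rw [h0, hb]⟩) b.2
        · exact absurd h0 (hg _ _ _ _ ha hb)
  have hc := Fintype.card_le_of_injective f hf
  rw [Fintype.card_sum, Fintype.card_sum, Fintype.card_prod] at hc
  have h1 : Fintype.card {a // PX a} + Fintype.card {a // ¬ PX a} = k := by
    have := Fintype.card_congr (Equiv.sumCompl PX)
    rwa [Fintype.card_sum, Fintype.card_fin] at this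
  have h2 : Fintype.card {a // PY a} + Fintype.card {a // ¬ PY a} = k := by
    have := Fintype.card_congr (Equiv.sumCompl PY)
    rwa [Fintype.card_sum, Fintype.card_fin] at this
  rcases Nat.eq_zero_or_pos (Fintype.card {a // ¬ PX a}) with hu | hu
  · left
    have hv : 0 < Fintype.card {b // ¬ PY b} := by
      rw [hu] at hc h1
      omega
    refine ⟨fun a => ?_, fun hT => ?_⟩
    · by_contra ha
      exact (Fintype.card_eq_zero_iff.1 hu).false ⟨a, fun h => ha ((hPX a).1 h)⟩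
    · obtain ⟨b⟩ := Fintype.card_pos_iff.1 hv
      exact b.2 ((hPY _).2 (hT b))
  · rcases Nat.eq_zero_or_pos (Fintype.card {b // ¬ PY b}) with hv | hv
    · right
      refine ⟨fun a => ?_, fun hT => ?_⟩
      · by_contra ha
        exact (Fintype.card_eq_zero_iff.1 hv).false ⟨a, fun h => ha ((hPY a).1 h)⟩
      · obtain ⟨b⟩ := Fintype.card_pos_iff.1 hu
        exact b.2 ((hPX _).2 (hT b))
    · exfalso
      have h3 : Fintype.card {a // ¬ PX a} * Fintype.card {b // ¬ PY b} + 2 ≤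
          Fintype.card {a // ¬ PX a} + Fintype.card {b // ¬ PY b} := by omega
      nlinarith

theorem cover [Fintype W] (hW : Fintype.card W + 2 ≤ 2 * k) (h : Fin k → Fin k → Fin k → W)
    (hh : Pr3 h) (hl : ∀ a b, ∃ c c', c ≠ c' ∧ h a b c = h a b c') :
    EX h ∨ EX (fun y x z => h x y z) := by
  choose c1 c2 hc he using hl
  have hd : Pr2 (fun a b => h a b (c1 a b)) := by
    intro a a' b b' ha hb h0
    have h0' : h a b (c1 a b) = h a' b' (c1 a' b') := h0
    by_cases h1 : c1 a b = c1 a' b'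
    · have h2 : c2 a b ≠ c1 a' b' := fun h2 => hc a b (h1.trans h2.symm)
      exact hh _ _ _ _ _ _ ha hb h2 ((he a b).symm.trans h0')
    · exact hh _ _ _ _ _ _ ha hb h1 h0'
  rcases types hW _ hd with ⟨hT, _⟩ | ⟨hT, _⟩
  · left
    intro a
    obtain ⟨b, b', hb, hbe⟩ := hT a
    have hbe' : h a b (c1 a b) = h a b' (c1 a b') := hbe
    exact ⟨b, b', c1 a b, c2 a b, c1 a b', c2 a b', hb, hc a b, hc a b', he a b, hbe',
      hbe'.trans (he a b')⟩
  · right
    intro b
    obtain ⟨a, a', ha, hae⟩ := hT b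
    have hae' : h a b (c1 a b) = h a' b (c1 a' b) := hae
    exact ⟨a, a', c1 a b, c2 a b, c1 a' b, c2 a' b, ha, hc a b, hc a' b, he a b, hae',
      hae'.trans (he a' b)⟩

end H630AC
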