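import Pool.Agent.H630AD.Defs

open scoped Classical
open Finset

namespace H630AC

variable {k : ℕ} {W : Type}

theorem lines_of (types : ∀ {k : ℕ} {W : Type} [Fintype W], Fintype.card W + 2 ≤ 2 * k →
      ∀ g : Fin k → Fin k → W, Pr2 g → (TX g ∧ ¬ TY g) ∨ (TY g ∧ ¬ TX g))
    [Fintype W] (hk : 3 ≤ k) (hW : Fintype.card W + 2 ≤ 2 * k)
    (h : Fin k → Fin k → Fin k → W) (hh : Pr3 h) (ht : TX (fun x z => h x x z)) :
    ∀ a b, ∃ c c', c ≠ c' ∧ h a b c = h a b c' := by
  intro p q
  by_cases hpq : p = q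
  · subst hpq
    exact ht p
  have hτp : Equiv.swap p q p = q := Equiv.swap_apply_left p q
  have hτq : Equiv.swap p q q = p := Equiv.swap_apply_right p q
  have hτ : ∀ a, a ≠ p → a ≠ q → Equiv.swap p q a = a := fun a h1 h2 =>
    Equiv.swap_apply_of_ne_of_ne h1 h2
  have hg' : Pr2 (fun x z => h x (Equiv.swap p q x) z) := by
    intro a a' b b' ha hb
    exact hh _ _ _ _ _ _ ha ((Equiv.swap p q).injective.ne ha) hb
  rcases types hW _ hg' with ⟨hX, _⟩ | ⟨hY, _⟩
  · have := hX p
    simpa only [hτp] using this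
  exfalso
  choose X X' hXX hXe using hY
  simp only at hXe
  choose C C' hCC hC using ht
  simp only at hC
  -- colours of the columns
  have hG : ∀ x z c, h x (Equiv.swap p q x) z = h (X c) (Equiv.swap p q (X c)) c → z = c := by
    intro x z c hx
    by_contra hz
    by_cases h1 : x = X c
    · have h2 : x ≠ X' c := by rw [h1]; exact hXX c
      rw [hXe c] at hx
      exact hg' x (X' c) z c h2 hz hx
    · exact hg' x (X c) z c h1 hz hx
  have hDD : ∀ x y z b, h x y z = h b b (C b) → x = b ∨ y = b := by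
    intro x y z b hx
    by_contra hcon
    push Not at hcon
    by_cases h1 : z = C b
    · have h2 : z ≠ C' b := by rw [h1]; exact hCC b
      rw [hC b] at hx
      exact hh x b y b z (C' b) hcon.1 hcon.2 h2 hx
    · exact hh x b y b z (C b) hcon.1 hcon.2 h1 hx
  have hDl : ∀ a b, h a a (C a) = h b b (C b) → a = b := by
    intro a b hab
    rcases hDD a a (C a) b hab with h1 | h1 <;> exact h1
  have hE : ∀ x z a, a ≠ p → a ≠ q → h x (Equiv.swap p q x) z = h a a (C a) → x = a := by
    intro x z a hap haq hx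
    rcases hDD _ _ _ a hx with h1 | h1
    · exact h1
    · have h2 := hτ a hap haq
      exact (Equiv.swap p q).injective (h1.trans h2.symm)
  have hdg : ∀ a c, a ≠ p → a ≠ q → h a a (C a) ≠ h (X c) (Equiv.swap p q (X c)) c := by
    intro a c hap haq he
    have h1 := hE (X c) c a hap haq he.symm
    have h2 := hE (X' c) c a hap haq (by rw [← hXe c]; exact he.symm)
    exact hXX c (h1.trans h2.symm)
  -- covering
  have hcardS : Fintype.card {a : Fin k // a ≠ p ∧ a ≠ q} = k - 2 := by
    rw [Fintype.card_subtype]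
    have h1 : (univ.filter fun a : Fin k => a ≠ p ∧ a ≠ q) = (univ.erase p).erase q := by
      ext a
      simp [and_comm]
    rw [h1, card_erase_of_mem (by simp [Ne.symm hpq]), card_erase_of_mem (mem_univ _), card_univ,
      Fintype.card_fin]
    omega
  let F : {a : Fin k // a ≠ p ∧ a ≠ q} ⊕ Fin k → W :=
    Sum.elim (fun a => h a.1 a.1 (C a.1)) (fun c => h (X c) (Equiv.swap p q (X c)) c)
  have hFi : Function.Injective F := by
    rintro (a | c) (b | d) hab
    · exact congrArg Sum.inl (Subtype.ext (hDl a.1 b.1 hab))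
    · exact absurd hab (hdg a.1 d a.2.1 a.2.2)
    · exact absurd (Eq.symm hab) (hdg b.1 c b.2.1 b.2.2)
    · exact congrArg Sum.inr (hG _ _ _ hab)
  have hFs : Function.Surjective F := by
    have h1 : Fintype.card ({a : Fin k // a ≠ p ∧ a ≠ q} ⊕ Fin k) = Fintype.card W := by
      apply le_antisymm (Fintype.card_le_of_injective F hFi)
      rw [Fintype.card_sum, hcardS, Fintype.card_fin]
      omega
    exact ((Fintype.bijective_iff_injective_and_card F).2 ⟨hFi, h1⟩).2
  have hcov : ∀ w : W, (∃ a, a ≠ p ∧ a ≠ q ∧ h a a (C a) = w) ∨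
      ∃ c, h (X c) (Equiv.swap p q (X c)) c = w := by
    intro w
    obtain ⟨a | c, ha⟩ := hFs w
    · exact Or.inl ⟨a.1, a.2.1, a.2.2, ha⟩
    · exact Or.inr ⟨c, ha⟩
  have R1 : ∀ c, h p q c = h (X c) (Equiv.swap p q (X c)) c := by
    intro c
    rcases hcov (h p q c) with ⟨a, hap, haq, ha⟩ | ⟨c', hc'⟩
    · exact absurd (hE p c a hap haq (by rw [hτp]; exact ha.symm)) (Ne.symm hap)
    · have h1 := hG p c c' (by rw [hτp]; exact hc'.symm)
      subst h1
      exact hc'.symm
  have key : ∀ r : Fin k, (r = p ∨ r = q) → ∃ c0 c, c ≠ c0 ∧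
      h (X c0) (Equiv.swap p q (X c0)) c0 = h r r (C r) ∧
      h r r c = h (X c0) (Equiv.swap p q (X c0)) c0 := by
    intro r hr
    rcases hcov (h r r (C r)) with ⟨a, hap, haq, ha⟩ | ⟨c0, hc0⟩
    · have h1 := hDl a r ha
      rcases hr with hr | hr
      · exact absurd (h1.trans hr) hap
      · exact absurd (h1.trans hr) haq
    · by_cases h1 : C r = c0
      · refine ⟨c0, C' r, ?_, hc0, ?_⟩
        · rw [← h1]; exact (hCC r).symm
        · rw [hc0, hC r]
      · exact ⟨c0, C r, h1, hc0, hc0.symm⟩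
  obtain ⟨c0, c, hc, hc0, hcc⟩ := key p (Or.inl rfl)
  obtain ⟨d0, d, hd, hd0, hdd⟩ := key q (Or.inr rfl)
  have hcd : c0 ≠ d0 := by
    intro he
    rw [he] at hc0
    exact hpq (hDl p q (hc0.symm.trans hd0))
  obtain ⟨a, hap, haq⟩ : ∃ a : Fin k, a ≠ p ∧ a ≠ q := by
    have h1 : 0 < Fintype.card {a : Fin k // a ≠ p ∧ a ≠ q} := by
      rw [hcardS]; omega
    obtain ⟨a⟩ := Fintype.card_pos_iff.1 h1
    exact ⟨a.1, a.2.1, a.2.2⟩
  have s3 : h q a c0 = h a a (C a) := by
    rcases hcov (h q a c0) with ⟨b, hbp, hbq, hb⟩ | ⟨e, he⟩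
    · rcases hDD q a c0 b hb.symm with h1 | h1
      · exact absurd h1.symm hbq
      · rw [← hb, h1]
    · exfalso
      by_cases h1 : e = c0
      · subst h1
        exact hh q p a p e c (Ne.symm hpq) hap (Ne.symm hc) (he.symm.trans hcc.symm)
      · exact hh p q q a e c0 hpq (Ne.symm haq) h1 ((R1 e).trans he)
  have s4 : h a p d0 = h a a (C a) := by
    rcases hcov (h a p d0) with ⟨b, hbp, hbq, hb⟩ | ⟨e, he⟩
    · rcases hDD a p d0 b hb.symm with h1 | h1
      · rw [← hb, h1]
      · exact absurd h1.symm hbp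
    · exfalso
      by_cases h1 : e = d0
      · subst h1
        exact hh a q p q e d haq hpq (Ne.symm hd) (he.symm.trans hdd.symm)
      · exact hh p a q p e d0 (Ne.symm hap) (Ne.symm hpq) h1 ((R1 e).trans he)
  exact hh q a a p c0 d0 (Ne.symm haq) hap hcd (s3.trans s4.symm)

end H630AC
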