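import Pool.Agent.H630AD.Defs

open scoped Classical
open Finset

namespace H630AC

variable {k : ℕ} {W : Type}

theorem a4_claim [Fintype W] (hk : 3 ≤ k) (hW : Fintype.card W + 2 ≤ 2 * k)
    (types : ∀ {k : ℕ} {W : Type} [Fintype W], Fintype.card W + 2 ≤ 2 * k →
      ∀ g : Fin k → Fin k → W, Pr2 g → (TX g ∧ ¬ TY g) ∨ (TY g ∧ ¬ TX g))
    (cover : ∀ {k : ℕ} {W : Type} [Fintype W], Fintype.card W + 2 ≤ 2 * k →
      ∀ h : Fin k → Fin k → Fin k → W, Pr3 h → (∀ a b, ∃ c c', c ≠ c' ∧ h a b c = h a b c') →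
      EX h ∨ EX (fun y x z => h x y z))
    (lines : ∀ {k : ℕ} {W : Type} [Fintype W], 3 ≤ k → Fintype.card W + 2 ≤ 2 * k →
      ∀ h : Fin k → Fin k → Fin k → W, Pr3 h → TX (fun x z => h x x z) →
      ∀ a b, ∃ c c', c ≠ c' ∧ h a b c = h a b c')
    (step3 : ∀ {k : ℕ} {W : Type} [Fintype W], 3 ≤ k → Fintype.card W + 2 ≤ 2 * k →
      ∀ h : Fin k → Fin k → Fin k → W, Pr3 h → EX h →
      TX (fun x z => h x z z) ∧ ¬ TX (fun y z => h z y z))
    (h : Fin k → Fin k → Fin k → W) (hh : Pr3 h) (h3 : ¬ TX (fun z x => h x x z)) :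
    (TX (fun x z => h x z z) ∧ ¬ TX (fun y z => h z y z)) ∨
      (TX (fun y z => h z y z) ∧ ¬ TX (fun x z => h x z z)) := by
  have hg : Pr2 (fun x z => h x x z) := fun a a' b b' ha hb => hh a a' a a' b b' ha ha hb
  have hTX : TX (fun x z => h x x z) := by
    rcases types hW _ hg with h1 | h1
    · exact h1.1
    · exact absurd h1.1 h3
  have hl := lines hk hW h hh hTX
  rcases cover hW h hh hl with hE | hE
  · exact Or.inl (step3 hk hW h hh hE)
  · have hh2 : Pr3 (fun y x z => h x y z) :=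
      fun a a' b b' c c' ha hb hc => hh b b' a a' c c' hb ha hc
    exact Or.inr (step3 hk hW _ hh2 hE)

theorem parity3_of [Fintype W]
    (types : ∀ {k : ℕ} {W : Type} [Fintype W], Fintype.card W + 2 ≤ 2 * k →
      ∀ g : Fin k → Fin k → W, Pr2 g → (TX g ∧ ¬ TY g) ∨ (TY g ∧ ¬ TX g))
    (cover : ∀ {k : ℕ} {W : Type} [Fintype W], Fintype.card W + 2 ≤ 2 * k →
      ∀ h : Fin k → Fin k → Fin k → W, Pr3 h → (∀ a b, ∃ c c', c ≠ c' ∧ h a b c = h a b c') →
      EX h ∨ EX (fun y x z => h x y z))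
    (lines : ∀ {k : ℕ} {W : Type} [Fintype W], 3 ≤ k → Fintype.card W + 2 ≤ 2 * k →
      ∀ h : Fin k → Fin k → Fin k → W, Pr3 h → TX (fun x z => h x x z) →
      ∀ a b, ∃ c c', c ≠ c' ∧ h a b c = h a b c')
    (step3 : ∀ {k : ℕ} {W : Type} [Fintype W], 3 ≤ k → Fintype.card W + 2 ≤ 2 * k →
      ∀ h : Fin k → Fin k → Fin k → W, Pr3 h → EX h →
      TX (fun x z => h x z z) ∧ ¬ TX (fun y z => h z y z))
    (hk : 3 ≤ k) (hW : Fintype.card W + 2 ≤ 2 * k)
    (h : Fin k → Fin k → Fin k → W) (hh : Pr3 h) :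
    xor (xor (decide (TX (fun x z => h x z z))) (decide (TX (fun y z => h z y z))))
      (decide (TX (fun z x => h x x z))) = true := by
  have c3 := a4_claim hk hW types cover lines step3 h hh
  have c1 : ¬ TX (fun x z => h x z z) →
      (TX (fun y z => h z y z) ∧ ¬ TX (fun z x => h x x z)) ∨
      (TX (fun z x => h x x z) ∧ ¬ TX (fun y z => h z y z)) :=
    a4_claim hk hW types cover lines step3 (fun y z x => h x y z)
      (fun a a' b b' c c' ha hb hc => hh c c' a a' b b' hc ha hb)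
  have c2 : ¬ TX (fun y z => h z y z) →
      (TX (fun x z => h x z z) ∧ ¬ TX (fun z x => h x x z)) ∨
      (TX (fun z x => h x x z) ∧ ¬ TX (fun x z => h x z z)) :=
    a4_claim hk hW types cover lines step3 (fun x z y => h x y z)
      (fun a a' b b' c c' ha hb hc => hh a a' c c' b b' ha hc hb)
  by_cases t1 : TX (fun x z => h x z z)
  · by_cases t2 : TX (fun y z => h z y z)
    · by_cases t3 : TX (fun z x => h x x z)
      · simp [t1, t2, t3]
      · exfalso
        rcases c3 t3 with h1 | h1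
        · exact h1.2 t2
        · exact h1.2 t1
    · by_cases t3 : TX (fun z x => h x x z)
      · exfalso
        rcases c2 t2 with h1 | h1
        · exact h1.2 t3
        · exact h1.2 t1
      · simp [t1, t2, t3]
  · by_cases t2 : TX (fun y z => h z y z)
    · by_cases t3 : TX (fun z x => h x x z)
      · exfalso
        rcases c1 t1 with h1 | h1
        · exact h1.2 t3
        · exact h1.2 t2
      · simp [t1, t2, t3]
    · by_cases t3 : TX (fun z x => h x x z)
      · simp [t1, t2, t3]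
      · exfalso
        rcases c3 t3 with h1 | h1
        · exact t1 h1.1
        · exact t2 h1.1

end H630AC
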