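import Pool.Agent.H630CD.Gen

/-! The lower bound in general, for promise problems (helper630) -/

open scoped Classical
open Finset Filter

namespace H630AC

open H630VC H630XR H630GI H630SD H630CD

variable {k b : ℕ}

/-- the family `f r`, `r ∈ R`, separates the instances in `Y` (value at least one) from those in `Z`
(value less than one) with advantage `ξ` -/
def PDecides {X R : Type} [Fintype R] (Y Z : X → Prop) (ξ : ℝ) (f : R → X → ℝ) : Prop :=
  ∀ x : X, (Z x → (1 / 2 + ξ) * Fintype.card R ≤ (univ.filter fun r => f r x < 1).card) ∧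
    (Y x → (1 / 2 + ξ) * Fintype.card R ≤ (univ.filter fun r => 1 ≤ f r x).card)

/-- `inst` is a reduction of parity systems in blocks -/
def PRed {X : Type} (k b : ℕ) (I : Set (X → ℝ)) (Y Z : X → Prop) (inst : BF k b 4 → X) : Prop :=
  (∀ f ∈ I, (fun F => f (inst F)) ∈ orInputs k b 4) ∧
  (∀ (F : BF k b 4) (m : Fin k), (¬ ∃ z : Fin b → Bool, ∀ c ∈ F m, OddSat z c) → Y (inst F)) ∧
  ∀ (F : BF k b 4) (z : Fin k → Fin b → Bool), (∀ m, ∀ c ∈ F m, OddSat (z m) c) → Z (inst F)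

/-- the walk on instances -/
theorem pwalk_gen {X : Type} {I : Set (X → ℝ)} {Y Z : X → Prop} {inst : BF k b 4 → X}
    (hr : PRed k b I Y Z inst) (hb : 1 ≤ b) (κ S ξ P : ℝ) (m : ℕ)
    (hd : ∀ l : List (Finset (Cl (Fin b) 4) → ℝ), Prog (orCnf b 4) l →
      (l.length : ℝ) ≤ S → ∀ f ∈ l,
      avg (fun ω : Fin m → Cl (Fin b) 4 => ind (1 ≤ f (univ.image ω))) ≤
        κ + avg fun z : Fin b → Bool => ind (1 ≤ f (oddFormula z)))
    {R : Type} [Fintype R] [Nonempty R]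
    (f : R → X → ℝ) (l : R → List (X → ℝ))
    (q : R → List (List ((X → ℝ) × ℝ)))
    (hp : ∀ r, FProg I (l r) (q r)) (hf : ∀ r, f r ∈ l r)
    (hdec : PDecides Y Z ξ f) (hξ0 : 0 ≤ 1 / 2 + ξ)
    (hsize : ∀ r, (((l r).length + wires (q r) + 2 : ℕ) : ℝ) ≤ S)
    (hP : ∀ r, (combos (q r) : ℝ) ≤ P) :
    k * (2 * ξ) ≤ k * κ + P + k * (2 ^ b / 2 ^ m) := by
  have hne : Nonempty (Fin m → Cl (Fin b) 4) := ⟨fun _ _ => (⟨0, hb⟩, true)⟩
  have hR : (0 : ℝ) < Fintype.card R := by exact_mod_cast Fintype.card_pos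
  refine walk_rand κ S (2 ^ b / 2 ^ m) ξ P m
    (fun F => ¬ ∃ z : Fin b → Bool, ∀ c ∈ F, OddSat z c) hd
    (fun r F => f r (inst F)) (fun r => (l r).map fun f => fun F => f (inst F))
    (fun r => (q r).map fun w => w.map fun p => ((fun x => p.1 (inst x)), p.2))
    (fun r => FProg.comap inst hr.1 (hp r))
    (fun r => List.mem_map.2 ⟨f r, hf r, rfl⟩) ?_ ?_ ?_ hξ0 (by positivity)
    (avg_sat (by norm_num) hb m) ?_ ?_
  · intro r
    rw [List.length_map, wires_map]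
    exact hsize r
  · intro r
    rw [combos_map]
    exact hP r
  · have h1 := (hdec (inst fun _ => ∅)).1 (hr.2.2 _ (fun _ _ => false)
      (fun m c hc => absurd hc (Finset.notMem_empty c)))
    have h2 : (((univ.filter fun r => f r (inst fun _ => ∅) < 1).card : ℕ) : ℝ) ≤
        Fintype.card R := by
      have := card_le_univ (univ.filter fun r => f r (inst fun _ => ∅) < 1)
      exact_mod_cast this
    have h3 : (1 / 2 + ξ) * Fintype.card R ≤ 1 * (Fintype.card R : ℝ) := by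
      rw [one_mul]
      exact h1.trans h2
    exact le_of_mul_le_mul_right h3 hR
  · intro y i F hF
    refine (hdec _).2 (hr.2.1 _ i fun hs => hF ?_)
    have h2 : (upd y i F : BF k b 4) i = F := by simp [upd]
    rw [h2] at hs
    exact hs
  · intro y i
    refine (hdec _).1 (hr.2.2 _ y fun j c hc => ?_)
    unfold ctx at hc
    by_cases hj : j.1 < i.1 + 1
    · rw [if_pos hj] at hc
      exact (mem_filter.1 hc).2
    · rw [if_neg hj] at hc
      exact absurd hc (Finset.notMem_empty c)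

/-- the lower bound -/
theorem plower_gen (M : ℕ) (hM : 1 ≤ M) (a c ξ : ℝ) (ha0 : 0 ≤ a) (ha : a < 1) (hc0 : 0 < c)
    (hc : c < (1 - a) / 52) (hξ : 0 < ξ) :
    ∃ N₀ : ℕ, ∀ N : ℕ, N₀ ≤ N → ∀ (X : Type) (I : Set (X → ℝ)) (Y Z : X → Prop),
      (∀ k b : ℕ, 1 ≤ b → k * (M * b ^ 4) ≤ N → ∃ inst : BF k b 4 → X, PRed k b I Y Z inst) →
      ∀ (R : Type) [Fintype R] [Nonempty R] (f : R → X → ℝ) (l : R → List (X → ℝ))
      (q : R → List (List ((X → ℝ) × ℝ))),
      (∀ r, FProg I (l r) (q r)) → (∀ r, f r ∈ l r) → PDecides Y Z ξ f →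
      (∀ r, (combos (q r) : ℝ) ≤ (N : ℝ) ^ a) →
      ∃ r, (2 : ℝ) ^ ((N : ℝ) ^ c) < (l r).length + wires (q r) := by
  set ρ : ℝ := 52 * c / (1 - a) with hρ
  have h1a : 0 < 1 - a := by linarith
  have hρ0 : 0 < ρ := by positivity
  have hρ1 : ρ < 1 := by
    rw [hρ, div_lt_one h1a]
    linarith
  set θ : ℝ := (1 + ρ) / 2 with hθ
  have hθ1 : θ < 1 := by rw [hθ]; linarith
  have hθ0 : 0 < θ := by rw [hθ]; linarith
  have hθρ : ρ < θ * θ := by
    have : θ * θ - ρ = ((1 - ρ) / 2) * ((1 - ρ) / 2) := by rw [hθ]; ring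
    have h2 : 0 < ((1 - ρ) / 2) * ((1 - ρ) / 2) := by
      have : 0 < (1 - ρ) / 2 := by linarith
      positivity
    linarith
  set ε : ℝ := (1 - a) / 4 * θ with hε
  set ν : ℝ := θ / 13 with hν
  set δ : ℝ := (13 * ν + 1) / 2 with hδ
  have hε0 : 0 < ε := by positivity
  have hν0 : 0 < ν := by positivity
  have hν13 : ν < 1 / 13 := by rw [hν]; linarith
  have hδ1 : δ < 1 := by rw [hδ]; linarith
  have hδ2 : (3 * ((4 : ℕ) : ℝ) + 1) * ν < δ := by rw [hδ]; push_cast; linarith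
  have h4 : a < 1 - 4 * ε := by
    have : 4 * ε = (1 - a) * θ := by rw [hε]; ring
    rw [this]
    nlinarith
  have hcε : c < ε * ν := by
    have e1 : ε * ν = (1 - a) / 52 * (θ * θ) := by rw [hε, hν]; ring
    have e2 : c = (1 - a) / 52 * ρ := by rw [hρ]; field_simp
    rw [e1, e2]
    exact mul_lt_mul_of_pos_left hθρ (by positivity)
  obtain ⟨N₁, hN₁⟩ := dich_ind 4 (by norm_num) δ ν hν0 hδ2
  obtain ⟨N₀, hN₀⟩ := choose_params M hM a c ξ ε ν δ N₁ ha0 hc0 hξ hε0 hν0 (by linarith) hδ1 h4 hcε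
  refine ⟨N₀, fun N hN X I Y Z hred R _ _ f l q hp hf hdec hcomb => ?_⟩
  obtain ⟨b, k, g1, g2, g3, g4, g5, g6, g7, g8, g9⟩ := hN₀ N hN
  by_contra hcon
  push Not at hcon
  have hsize : ∀ r, (((l r).length + wires (q r) + 2 : ℕ) : ℝ) ≤ 2 ^ ((N : ℝ) ^ c) + 2 := by
    intro r
    have := hcon r
    push_cast
    linarith
  have hd : ∀ l : List (Finset (Cl (Fin b) 4) → ℝ), Prog (orCnf b 4) l →
      (l.length : ℝ) ≤ 2 ^ ((N : ℝ) ^ c) + 2 → ∀ f ∈ l,
      avg (fun ω : Fin (2 * b) → Cl (Fin b) 4 => ind (1 ≤ f (univ.image ω))) ≤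
        (b : ℝ) ^ (-ν) + avg fun z : Fin b → Bool => ind (1 ≤ f (oddFormula z)) := by
    intro l hl hlen f hf
    obtain ⟨l', h1, h2, h3⟩ := expand hl
    refine hN₁ b g1 (2 * b) g5 l' h1 ?_ f (h2 hf)
    have e1 : Fintype.card (Cl (Fin b) 4) = 16 * b ^ 4 := by rw [card_cl]; ring
    rw [e1] at h3
    have h4 : (l'.length : ℝ) ≤ l.length * (2 * (16 * b ^ 4) + 1) := by exact_mod_cast h3
    have hb1 : (1 : ℝ) ≤ (b : ℝ) ^ 4 := one_le_pow₀ (by exact_mod_cast g2)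
    refine h4.trans (le_trans ?_ g6)
    apply mul_le_mul hlen (by linarith) (by positivity) (by positivity)
  obtain ⟨inst, hr⟩ := hred k b g2 g4
  have hw := pwalk_gen hr g2 ((b : ℝ) ^ (-ν)) (2 ^ ((N : ℝ) ^ c) + 2) ξ ((N : ℝ) ^ a)
    (2 * b) hd f l q hp hf hdec (by linarith) hsize hcomb
  have hk0 : (0 : ℝ) < k := by exact_mod_cast g3
  nlinarith

end H630AC
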