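import Pool.Agent.H630CD.Low
import Pool.Agent.H630AD.PGen
import Pool.Agent.H630AD.A1
import Pool.Agent.H630AD.A2
import Pool.Agent.H630AD.A3
import Pool.Agent.H630AD.A4
import Pool.Agent.H630AD.A5

/-! The reduction from parity systems to approximate colouring (helper630) -/

open scoped Classical
open Finset

namespace H630AC

open H630VC H630XR H630GI H630SD H630CD

/-- a proper colouring of the eighth power of the complete graph with at most `2k-2` colours: the
types of its binary minors -/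
theorem add8 {k : ℕ} {W : Type} [Fintype W] (hk : 3 ≤ k) (hW : Fintype.card W + 2 ≤ 2 * k)
    (f : (Fin 8 → Fin k) → W) (hf : ∀ p q : Fin 8 → Fin k, (∀ s, p s ≠ q s) → f p ≠ f q)
    (A : Fin 4 → Fin 8 → Bool) (β : Bool)
    (hA : ∀ s, xor (xor (A 0 s) (A 1 s)) (xor (A 2 s) (A 3 s)) = β) :
    xor (xor (decide (TY (fun x y => f fun s => if A 0 s = true then y else x)))
        (decide (TY (fun x y => f fun s => if A 1 s = true then y else x))))
      (xor (decide (TY (fun x y => f fun s => if A 2 s = true then y else x)))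
        (decide (TY (fun x y => f fun s => if A 3 s = true then y else x)))) = β :=
  add8_of (fun hW g hg => types hW g hg)
    (fun hk hW h hh => parity3_of (fun hW g hg => types hW g hg)
      (fun hW h hh hl => cover hW h hh hl)
      (fun hk hW h hh ht => lines_of (fun hW g hg => types hW g hg) hk hW h hh ht)
      (fun hk hW h hh he => step3_of (fun hW g hg => types hW g hg)
        (fun hW h hh hl => cover hW h hh hl)
        (fun hk hW h hh ht => lines_of (fun hW g hg => types hW g hg) hk hW h hh ht)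
        hk hW h hh he) hk hW h hh)
    hk hW f hf A β hA

variable {K k b : ℕ}

/-- the graph of a formula -/
noncomputable def cinst (K : ℕ) {N : ℕ} (e : Wd (Fin K) k b → Fin N) (F : BF k b 4) :
    SimpleGraph (Fin N) :=
  gr (inst (grel (⊤ : SimpleGraph (Fin K))) e F)

theorem odd_of_col (hK : 3 ≤ K) {N : ℕ} (e : Wd (Fin K) k b → Fin N)
    (he : Function.Injective e) (F : BF k b 4)
    (h : (cinst K e F).Colorable (2 * K - 2)) (m : Fin k) :
    ∃ z : Fin b → Bool, ∀ c ∈ F m, OddSat z c := by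
  obtain ⟨x⟩ := h
  refine ⟨fun v => decide (TY (fun d d' : Fin K => x (e (m, vx v d d')))), fun c hc => ?_⟩
  rw [oddSat_iff4]
  have hf : ∀ p q : Fin 8 → Fin K, (∀ s, p s ≠ q s) →
      x (e (m, loc c p)) ≠ x (e (m, loc c q)) := by
    intro p q hpq
    apply x.valid
    refine ⟨fun h => ?_, Or.inl ⟨⟨(), fun j => e (m, loc c fun s => (![p s, q s] : Fin 2 → Fin K) j)⟩,
      ⟨m, c, hc, (), fun s => ![p s, q s], fun s => ?_, rfl⟩, rfl, rfl⟩⟩
    · have h1 := he h
      have h2 : loc c p = loc c q := by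
        simp only [Prod.mk.injEq, true_and] at h1
        exact h1
      exact loc_ne (⊤ : SimpleGraph (Fin K)) c p q (fun s => hpq s) h2
    · show (⊤ : SimpleGraph (Fin K)).Adj (p s) (q s)
      exact hpq s
  have key : ∀ j : Fin 4, (fun d d' : Fin K => x (e (m, vx (c j).1 d d'))) =
      fun d d' => x (e (m, loc c fun s => if col (vb c) j s = true then d' else d)) := by
    intro j
    funext d d'
    have := loc_cpt c j d d'
    unfold cpt at this
    rw [this]
  rw [key 0, key 1, key 2, key 3]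
  have hcard : Fintype.card (Fin (2 * K - 2)) + 2 ≤ 2 * K := by
    rw [Fintype.card_fin]
    omega
  refine add8 hK hcard (fun p => x (e (m, loc c p))) hf (fun j => col (vb c) j) (vb c) fun s => ?_
  simp only [col, colv]
  generalize en8 s = v
  generalize vb c = β
  revert v β
  decide

theorem pred_col (hK : 3 ≤ K) (N : ℕ) (hb : 1 ≤ b)
    (hN : k * (18 * (Fintype.card (Fin K) + 1) ^ 8 * b ^ 4) ≤ N) :
    ∃ inst : BF k b 4 → SimpleGraph (Fin N),
      PRed k b (adjInputs N) (fun H => ¬ H.Colorable (2 * K - 2)) (fun H => H.Colorable K) inst := by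
  have : Nonempty (Fin K) := ⟨⟨0, by omega⟩⟩
  have hcard : Fintype.card (Wd (Fin K) k b) ≤ Fintype.card (Fin N) := by
    rw [Fintype.card_fin]
    exact (card_wd k b hb).trans hN
  obtain ⟨e⟩ := Function.Embedding.nonempty_of_card_le hcard
  refine ⟨cinst K e, ?_, fun F m h hc => h (odd_of_col hK e e.injective F hc m), fun F z hz => ?_⟩
  · rintro f (⟨x, y, rfl⟩ | ⟨r, rfl⟩)
    · by_cases hxy : x = y
      · refine Or.inr ⟨0, ?_⟩
        funext F
        exact if_neg fun h => h.1 hxy
      · refine Or.inl ⟨univ.filter fun p : Fin k × Cl (Fin b) 4 =>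
          (∃ C ∈ gad (grel (⊤ : SimpleGraph (Fin K))) e p.1 p.2, C.2 0 = x ∧ C.2 1 = y) ∨
            ∃ C ∈ gad (grel (⊤ : SimpleGraph (Fin K))) e p.1 p.2, C.2 0 = y ∧ C.2 1 = x, ?_⟩
        funext F
        have h1 : (cinst K e F).Adj x y ↔
            ∃ p ∈ univ.filter (fun p : Fin k × Cl (Fin b) 4 =>
              (∃ C ∈ gad (grel (⊤ : SimpleGraph (Fin K))) e p.1 p.2, C.2 0 = x ∧ C.2 1 = y) ∨
              ∃ C ∈ gad (grel (⊤ : SimpleGraph (Fin K))) e p.1 p.2, C.2 0 = y ∧ C.2 1 = x),
              p.2 ∈ F p.1 := by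
          constructor
          · rintro ⟨-, ⟨C, ⟨m, c, hc, hC⟩, h⟩ | ⟨C, ⟨m, c, hc, hC⟩, h⟩⟩
            · exact ⟨(m, c), mem_filter.2 ⟨mem_univ _, Or.inl ⟨C, hC, h⟩⟩, hc⟩
            · exact ⟨(m, c), mem_filter.2 ⟨mem_univ _, Or.inr ⟨C, hC, h⟩⟩, hc⟩
          · rintro ⟨p, hp, hc⟩
            refine ⟨hxy, ?_⟩
            rcases (mem_filter.1 hp).2 with ⟨C, hC, h⟩ | ⟨C, hC, h⟩
            · exact Or.inl ⟨C, ⟨p.1, p.2, hc, hC⟩, h⟩
            · exact Or.inr ⟨C, ⟨p.1, p.2, hc, hC⟩, h⟩
        rw [← ind_congr h1]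
        unfold ind
        by_cases h2 : (cinst K e F).Adj x y
        · exact (if_pos h2).trans (if_pos h2).symm
        · exact (if_neg h2).trans (if_neg h2).symm
    · exact Or.inr ⟨r, rfl⟩
  · have h1 := sat_of_odd (rel := grel (⊤ : SimpleGraph (Fin K))) e e.injective F z hz
    rw [← gr_sat (⊤ : SimpleGraph (Fin K)) _
      (inst_loopless (⊤ : SimpleGraph (Fin K)) e e.injective F)] at h1
    exact h1

end H630AC
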